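import Mathlib

set_option autoImplicit false
open Finset

namespace Pool.Agent.H.MP_edb722_lc

lemma ball (F : Finset (ℕ → Bool)) (C : Finset ℕ) (z : ℕ → Bool)
    (h1 : ∀ u ∈ F, ∀ p q, u p ≠ z p → u q ≠ z q → p = q) (h2 : ∀ u ∈ F, ∀ p, u p ≠ z p → p ∈ C) :
    F.card ≤ C.card + 1 := by
  classical
  refine (card_le_card (t := insert z (C.image fun c => Function.update z c (!z c)))
    fun u hu => ?_).trans ((card_insert_le _ _).trans (by simpa using card_image_le))
  by_cases h : u = z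
  · simp [h]
  obtain ⟨p, hp⟩ := Function.ne_iff.1 h
  refine mem_insert_of_mem (mem_image.2 ⟨p, h2 u hu p hp, funext fun q => ?_⟩)
  by_cases hq : q = p
  · subst hq; rw [Function.update_self]; exact (Bool.eq_not_iff.2 hp).symm
  · rw [Function.update_of_ne hq]
    by_contra h3
    exact hq (h1 u hu q p (Ne.symm h3) hp)

lemma diam (F : Finset (ℕ → Bool)) (C : Finset ℕ)
    (h3 : ∀ u ∈ F, ∀ v ∈ F, ∀ p q r, u p ≠ v p → u q ≠ v q → u r ≠ v r → p = q ∨ p = r ∨ q = r)
    (hC : ∀ u ∈ F, ∀ v ∈ F, ∀ p, u p ≠ v p → p ∈ C) : F.card ≤ max (C.card + 1) 4 := by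
  classical
  rcases F.eq_empty_or_nonempty with rfl | ⟨z, hz⟩
  · simp
  by_cases h1 : ∀ u ∈ F, ∀ p q, u p ≠ z p → u q ≠ z q → p = q
  · exact le_max_of_le_left (ball F C z h1 fun u hu => hC u hu z hz)
  push Not at h1
  obtain ⟨w, hw, a, b, ha, hb, hab⟩ := h1
  have star : ∀ a, w a ≠ z a → (∀ u ∈ F, u = z ∨ u a ≠ z a) → F.card ≤ max (C.card + 1) 4 := by
    intro a ha h
    refine le_max_of_le_left (ball F C (Function.update z a (!z a)) (fun u hu p q hp hq => ?_)
      fun u hu p hp => ?_)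
    · rcases h u hu with rfl | h4
      · by_cases h5 : p = a <;> by_cases h6 : q = a <;> simp_all
      · by_cases h5 : p = a
        · subst h5; simp at hp; simp [hp] at h4
        by_cases h6 : q = a
        · subst h6; simp at hq; simp [hq] at h4
        rw [Function.update_of_ne h5] at hp
        rw [Function.update_of_ne h6] at hq
        have := h3 u hu z hz p q a hp hq h4
        tauto
    · by_cases h5 : p = a
      · exact h5 ▸ hC w hw z hz a ha
      · rw [Function.update_of_ne h5] at hp; exact hC u hu z hz p hp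
  by_cases h4 : ∀ u ∈ F, u = z ∨ u a ≠ z a
  · exact star a ha h4
  by_cases h5 : ∀ u ∈ F, u = z ∨ u b ≠ z b
  · exact star b hb h5
  push Not at h4 h5
  obtain ⟨x, hx, hxz, hxa⟩ := h4
  obtain ⟨y, hy, hyz, hyb⟩ := h5
  have bo : ∀ s t r : Bool, s ≠ r → t ≠ r → s = t := by decide
  have two : ∀ u ∈ F, ∀ v ∈ F, u a ≠ v a → u b ≠ v b → ∀ p, p ≠ a → p ≠ b → u p = v p := by
    intro u hu v hv h1 h2 p h6 h7
    by_contra h8
    have := h3 u hu v hv p a b h8 h1 h2
    tauto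
  have eq : ∀ u v : ℕ → Bool, u a = v a → u b = v b → (∀ p, p ≠ a → p ≠ b → u p = v p) → u = v :=
    fun u v h1 h2 h => funext fun p => by
      by_cases h6 : p = a
      · rw [h6, h1]
      by_cases h7 : p = b
      · rw [h7, h2]
      exact h p h6 h7
  have meet : ∀ u ∈ F, u a = z a → u b = z b → u = z := fun u hu h1 h2 =>
    eq u z h1 h2 fun p h6 h7 => (two u hu w hw (h1 ▸ ha.symm) (h2 ▸ hb.symm) p h6 h7).trans
      (two w hw z hz ha hb p h6 h7)
  have hxb : x b ≠ z b := fun h => hxz (meet x hx hxa h)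
  have hya : y a ≠ z a := fun h => hyz (meet y hy h hyb)
  have hxy := two x hx y hy (hxa ▸ hya.symm) (hyb ▸ hxb)
  refine le_max_of_le_right ((card_le_card (t := {z, w, x, y}) fun u hu => ?_).trans card_le_four)
  simp only [mem_insert, mem_singleton]
  by_cases h6 : u a = z a <;> by_cases h7 : u b = z b
  · exact Or.inl (meet u hu h6 h7)
  · exact Or.inr (Or.inr (Or.inl (eq u x (h6.trans hxa.symm) (bo _ _ _ h7 hxb) fun p h8 h9 =>
      (two u hu y hy (h6 ▸ hya.symm) (hyb ▸ h7) p h8 h9).trans (hxy p h8 h9).symm)))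
  · exact Or.inr (Or.inr (Or.inr (eq u y (bo _ _ _ h6 hya) (h7.trans hyb.symm) fun p h8 h9 =>
      (two u hu x hx (hxa ▸ h6) (h7 ▸ hxb.symm) p h8 h9).trans (hxy p h8 h9))))
  · exact Or.inr (Or.inl (eq u w (bo _ _ _ h6 ha) (bo _ _ _ h7 hb) fun p h8 h9 =>
      (two u hu z hz h6 h7 p h8 h9).trans (two w hw z hz ha hb p h8 h9).symm))

def g (n a : ℕ) : ℕ := a + (3 * n ^ 2 + 1) * (a ^ 2 + (3 * n ^ 2 + 1) * a ^ 3)

lemma g_mono (n : ℕ) : StrictMono (g n) := fun a b h => by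
  unfold g
  have := h.le
  gcongr

lemma three {n a b c x y z : ℕ} (ha : a < n) (hb : b < n) (hc : c < n) (hx : x < n) (hy : y < n)
    (hz : z < n) (h : g n a + g n b + g n c = g n x + g n y + g n z) : a = x ∨ a = y ∨ a = z := by
  set T := 3 * n ^ 2 + 1 with hT
  have dig : ∀ p q r s : ℕ, p < T → r < T → p + T * q = r + T * s → p = r ∧ q = s := by
    intro p q r s hp hr h
    have h1 := congrArg (· % T) h
    simp only [Nat.add_mul_mod_self_left, Nat.mod_eq_of_lt hp, Nat.mod_eq_of_lt hr] at h1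
    subst h1
    exact ⟨rfl, Nat.eq_of_mul_eq_mul_left (by omega : 0 < T) (by omega)⟩
  have sq : ∀ u < n, u ^ 2 ≤ n ^ 2 ∧ u ≤ n ^ 2 := fun u hu => ⟨by gcongr, by nlinarith⟩
  have := sq a ha; have := sq b hb; have := sq c hc; have := sq x hx; have := sq y hy
  have := sq z hz
  obtain ⟨h1, h2⟩ := dig (a + b + c) (a ^ 2 + b ^ 2 + c ^ 2 + T * (a ^ 3 + b ^ 3 + c ^ 3))
    (x + y + z) (x ^ 2 + y ^ 2 + z ^ 2 + T * (x ^ 3 + y ^ 3 + z ^ 3)) (by omega) (by omega)
    (by unfold g at h; rw [← hT] at h; linarith)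
  obtain ⟨h2, h3⟩ := dig _ _ _ _ (by omega) (by omega) h2
  zify at h1 h2 h3 ⊢
  have : ((a : ℤ) - x) * (a - y) * (a - z) * 6 = 0 := by
    have e : (z : ℤ) = a + b + c - x - y := by linarith
    rw [e] at h2 h3 ⊢
    linear_combination (-3 * ((b : ℤ) + c)) * h2 + 2 * h3
  simpa [sub_eq_zero, or_assoc] using this

lemma two {n a b x y : ℕ} (ha : a < n) (hb : b < n) (hx : x < n) (hy : y < n)
    (h : g n a + g n b = g n x + g n y) : (a = x ∧ b = y) ∨ (a = y ∧ b = x) := by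
  rcases three ha hb hx hx hy hx (by omega) with rfl | rfl | rfl
  · exact Or.inl ⟨rfl, (g_mono n).injective (by omega)⟩
  · exact Or.inr ⟨rfl, (g_mono n).injective (by omega)⟩
  · exact Or.inl ⟨rfl, (g_mono n).injective (by omega)⟩

def Cl (n : ℕ) (es : List (ℕ × ℕ)) (k : ℕ) : Prop :=
  ∃ S : Finset ℕ, (∀ x ∈ S, x < n) ∧ (∀ x ∈ S, ∀ y ∈ S, x < y → (x, y) ∈ es) ∧ S.card = k

lemma Cl.mono {n : ℕ} {es : List (ℕ × ℕ)} {k l : ℕ} (h : Cl n es k) (hl : l ≤ k) : Cl n es l := by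
  obtain ⟨S, h1, h2, rfl⟩ := h
  obtain ⟨U, hU, rfl⟩ := exists_subset_card_eq hl
  exact ⟨U, fun x hx => h1 x (hU hx), fun x hx y hy => h2 x (hU hx) y (hU hy), rfl⟩

lemma row {n : ℕ} {es : List (ℕ × ℕ)} (hes : ∀ e ∈ es, e.1 < e.2 ∧ e.2 < n) (C : Finset ℕ)
    (hC : C.Nonempty) (a : ℕ) (b : ℕ → ℕ) (h1 : ∀ c ∈ C, (a, b c) ∈ es ∨ (b c, a) ∈ es)
    (h2 : ∀ c ∈ C, ∀ c' ∈ C, c < c' → (b c, b c') ∈ es ∨ (b c', b c) ∈ es) :
    Cl n es (C.card + 1) := by
  have key : ∀ x y, (x, y) ∈ es ∨ (y, x) ∈ es → x ≠ y ∧ x < n ∧ y < n ∧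
      (x < y → (x, y) ∈ es) ∧ (y < x → (y, x) ∈ es) := by
    rintro x y (h | h) <;> have := hes _ h <;> simp only at this <;>
      exact ⟨by omega, by omega, by omega, fun _ => by first | exact h | omega,
        fun _ => by first | exact h | omega⟩
  obtain ⟨c0, hc0⟩ := hC
  refine ⟨insert a (C.image b), ?_, ?_, ?_⟩
  · simp only [mem_insert, mem_image]
    rintro x (rfl | ⟨c, hc, rfl⟩)
    · exact (key _ _ (h1 c0 hc0)).2.1
    · exact (key _ _ (h1 c hc)).2.2.1
  · simp only [mem_insert, mem_image]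
    rintro x (rfl | ⟨c, hc, rfl⟩) y (rfl | ⟨c', hc', rfl⟩) hl
    · omega
    · exact (key _ _ (h1 c' hc')).2.2.2.1 hl
    · exact (key _ _ (h1 c hc)).2.2.2.2 hl
    · rcases lt_trichotomy c c' with h | rfl | h
      · exact (key _ _ (h2 c hc c' hc' h)).2.2.2.1 hl
      · omega
      · exact (key _ _ (h2 c' hc' c hc h)).2.2.2.2 hl
  · rw [card_insert_of_notMem, card_image_of_injOn]
    · intro c hc c' hc' h
      rcases lt_trichotomy c c' with h3 | h3 | h3
      · exact absurd h (key _ _ (h2 c hc c' hc' h3)).1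
      · exact h3
      · exact absurd h.symm (key _ _ (h2 c' hc' c hc h3)).1
    · simp only [mem_image, not_exists, not_and]
      exact fun c hc h => (key _ _ (h1 c hc)).1 h.symm

lemma clq {n : ℕ} {es : List (ℕ × ℕ)} (hes : ∀ e ∈ es, e.1 < e.2 ∧ e.2 < n) (C : Finset ℕ)
    (h : ∀ c ∈ C, ∀ c' ∈ C, c < c' → ∃ e ∈ es, c' - c + g n e.1 = g n e.2) :
    C.card ≤ 1 ∨ Cl n es C.card := by
  by_cases h1 : C.card ≤ 1
  · exact Or.inl h1
  right
  have hne : C.Nonempty := card_pos.1 (by omega)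
  set c0 := C.min' hne
  have h0 : c0 ∈ C := C.min'_mem hne
  have hc : (C.erase c0).card + 1 = C.card := card_erase_add_one h0
  have hlt : ∀ c ∈ C.erase c0, c ∈ C ∧ c0 < c := fun c hc =>
    ⟨mem_of_mem_erase hc, lt_of_le_of_ne (C.min'_le c (mem_of_mem_erase hc)) (ne_of_mem_erase hc).symm⟩
  choose! e he using fun c (hc : c ∈ C.erase c0) => h c0 h0 c (hlt c hc).1 (hlt c hc).2
  have rel : ∀ c ∈ C.erase c0, ∀ c' ∈ C.erase c0, c < c' →
      ((e c).2 = (e c').2 ∧ (e c).1 ≠ (e c').1 ∧ ((e c').1, (e c).1) ∈ es) ∨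
      ((e c).1 = (e c').1 ∧ (e c).2 ≠ (e c').2 ∧ ((e c).2, (e c').2) ∈ es) := by
    intro c hc c' hc' hl
    obtain ⟨f, hf, h2⟩ := h c (hlt c hc).1 c' (hlt c' hc').1 hl
    obtain ⟨h3, h4⟩ := he c hc
    obtain ⟨h5, h6⟩ := he c' hc'
    have := hes _ hf; have := hes _ h3; have := hes _ h5
    have := hlt c hc
    rcases three (n := n) (a := (e c').2) (b := (e c).1) (c := f.1) (x := f.2) (y := (e c').1)
      (z := (e c).2) (by omega) (by omega) (by omega) (by omega) (by omega) (by omega)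
      (by omega) with h7 | h7 | h7
    · rcases two (n := n) (a := (e c).1) (b := f.1) (x := (e c').1) (y := (e c).2)
        (by omega) (by omega) (by omega) (by omega) (by rw [h7] at h6; omega) with h8 | h8
      · exact Or.inr ⟨h8.1, by omega, by rw [← h8.2, h7]; exact hf⟩
      · omega
    · omega
    · rcases two (n := n) (a := (e c).1) (b := f.1) (x := f.2) (y := (e c').1)
        (by omega) (by omega) (by omega) (by omega) (by rw [h7] at h6; omega) with h8 | h8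
      · exact Or.inl ⟨h7.symm, by omega, by rw [← h8.2, h8.1]; exact hf⟩
      · omega
  have hne' : (C.erase c0).Nonempty := card_pos.1 (by omega)
  have rel' : ∀ c ∈ C.erase c0, ∀ c' ∈ C.erase c0, (e c).2 = (e c').2 ∨ (e c).1 = (e c').1 := by
    intro c hc c' hc'
    rcases lt_trichotomy c c' with h3 | rfl | h3
    · have := rel c hc c' hc' h3; omega
    · simp
    · have := rel c' hc' c hc h3; omega
  rw [← hc]
  by_cases h2 : ∀ c ∈ C.erase c0, ∀ c' ∈ C.erase c0, (e c).2 = (e c').2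
  · obtain ⟨c1, hc1⟩ := id hne'
    refine row hes _ hne' (e c1).2 (fun c => (e c).1)
      (fun c hc => Or.inr (h2 c hc c1 hc1 ▸ (he c hc).1)) fun c hc c' hc' hl => ?_
    have := h2 c hc c' hc'
    rcases rel c hc c' hc' hl with h3 | h3
    · exact Or.inr h3.2.2
    · omega
  · push Not at h2
    obtain ⟨c1, hc1, c2, hc2, h3⟩ := h2
    have h4 : ∀ c ∈ C.erase c0, (e c).1 = (e c1).1 := fun c hc => by
      have := rel' c hc c1 hc1; have := rel' c hc c2 hc2; have := rel' c1 hc1 c2 hc2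
      omega
    refine row hes _ hne' (e c1).1 (fun c => (e c).2)
      (fun c hc => Or.inl (h4 c hc ▸ (he c hc).1)) fun c hc c' hc' hl => ?_
    have := h4 c hc; have := h4 c' hc'
    rcases rel c hc c' hc' hl with h3 | h3
    · omega
    · exact Or.inl h3.2.2

end Pool.Agent.H.MP_edb722_lc
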