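import Pool.Agent.H.MP_edb722_lc.A

set_option autoImplicit false
open Finset Filter Topology

namespace Pool.Agent.H.MP_edb722_lc

/-- the coordinatewise difference of two binary words -/
def diff {t : ℕ} (u v : Fin t → Bool) : List ℤ := List.ofFn fun i => (u i).toInt - (v i).toInt

/-- no word of `D` is a factor of a difference of two distinct words of `W` -/
def Avoids (D : List (List ℤ)) {t : ℕ} (W : Finset (Fin t → Bool)) : Prop :=
  ∀ u ∈ W, ∀ v ∈ W, u ≠ v → ∀ d ∈ D, ¬ d <:+: diff u v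

/-- the largest size of a set of words of length `t` avoiding `D` -/
noncomputable def delta (D : List (List ℤ)) (t : ℕ) : ℕ :=
  sSup {c | ∃ W : Finset (Fin t → Bool), Avoids D W ∧ W.card = c}

/-- the capacity -/
noncomputable def cap (D : List (List ℤ)) : ℝ :=
  limUnder atTop fun t : ℕ => Real.logb 2 (delta D t) / t

variable {D : List (List ℤ)}

lemma bdd (t : ℕ) : BddAbove {c | ∃ W : Finset (Fin t → Bool), Avoids D W ∧ W.card = c} :=
  ⟨_, fun _ ⟨W, _, h⟩ => h ▸ W.card_le_univ⟩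

lemma le_delta {t : ℕ} {W : Finset (Fin t → Bool)} (h : Avoids D W) : W.card ≤ delta D t :=
  le_csSup (bdd t) ⟨W, h, rfl⟩

lemma ex_delta (t : ℕ) : ∃ W : Finset (Fin t → Bool), Avoids D W ∧ W.card = delta D t :=
  Nat.sSup_mem (s := {c | ∃ W : Finset (Fin t → Bool), Avoids D W ∧ W.card = c})
    ⟨0, ∅, by simp [Avoids], rfl⟩ (bdd t)

lemma one_le (t : ℕ) : 1 ≤ delta D t := by
  simpa using le_delta (D := D) (W := {fun _ : Fin t => false}) (by simp [Avoids])

lemma delta_add (s t : ℕ) : delta D (s + t) ≤ delta D s * delta D t := by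
  obtain ⟨W, hW, h⟩ := ex_delta (D := D) (s + t)
  have e : ∀ u v : Fin (s + t) → Bool, diff u v =
      diff (u ∘ Fin.castAdd t) (v ∘ Fin.castAdd t) ++ diff (u ∘ Fin.natAdd s) (v ∘ Fin.natAdd s) :=
    fun u v => by unfold diff; rw [List.ofFn_add]; rfl
  rw [← h]
  refine le_trans ?_ (Nat.mul_le_mul (le_delta (W := W.image (· ∘ Fin.castAdd t)) ?_)
    (le_delta (W := W.image (· ∘ Fin.natAdd s)) ?_))
  · rw [← card_product]
    refine card_le_card_of_injOn (fun u => (u ∘ Fin.castAdd t, u ∘ Fin.natAdd s))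
      (fun u hu => mem_coe.2 (mem_product.2 ⟨mem_image_of_mem _ hu, mem_image_of_mem _ hu⟩))
      fun u _ v _ h => funext fun i => ?_
    simp only [Prod.mk.injEq] at h
    exact Fin.addCases (fun j => congrFun h.1 j) (fun j => congrFun h.2 j) i
  · simp only [Avoids, forall_mem_image]
    intro u hu v hv h d hd ⟨a, b, h2⟩
    exact hW u hu v hv (fun h3 => h (h3 ▸ rfl)) d hd
      ⟨a, b ++ _, by rw [e, ← h2]; simp only [List.append_assoc]; rfl⟩
  · simp only [Avoids, forall_mem_image]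
    intro u hu v hv h d hd ⟨a, b, h2⟩
    exact hW u hu v hv (fun h3 => h (h3 ▸ rfl)) d hd
      ⟨_ ++ a, b, by rw [e, ← h2]; simp only [List.append_assoc]; rfl⟩

lemma subadd (D : List (List ℤ)) : Subadditive fun t => Real.logb 2 (delta D t) := fun s t => by
  have h1 : (0 : ℝ) < delta D s := by exact_mod_cast one_le s
  have h2 : (0 : ℝ) < delta D t := by exact_mod_cast one_le t
  have h3 : (0 : ℝ) < delta D (s + t) := by exact_mod_cast one_le (s + t)
  simp only
  rw [← Real.logb_mul h1.ne' h2.ne']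
  exact Real.logb_le_logb_of_le one_lt_two h3 (by exact_mod_cast delta_add s t)

lemma bddb (D : List (List ℤ)) :
    BddBelow (Set.range fun t : ℕ => Real.logb 2 (delta D t) / t) :=
  ⟨0, by
    rintro _ ⟨t, rfl⟩
    exact div_nonneg (Real.logb_nonneg one_lt_two (by exact_mod_cast one_le t)) t.cast_nonneg⟩

lemma cap_eq (D : List (List ℤ)) : cap D = (subadd D).lim :=
  ((subadd D).tendsto_lim (bddb D)).limUnder_eq

lemma tend (D : List (List ℤ)) :
    Tendsto (fun t : ℕ => Real.logb 2 (delta D t) / t) atTop (𝓝 (cap D)) :=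
  cap_eq D ▸ (subadd D).tendsto_lim (bddb D)

lemma cap_le {t k : ℕ} (ht : 0 < t) (h : delta D t ≤ k) : cap D ≤ Real.logb 2 k / t := by
  rw [cap_eq]
  refine ((subadd D).lim_le_div (bddb D) ht.ne').trans ?_
  have h3 : (0 : ℝ) < delta D t := by exact_mod_cast one_le t
  exact div_le_div_of_nonneg_right
    (Real.logb_le_logb_of_le one_lt_two h3 (by exact_mod_cast h)) t.cast_nonneg

lemma le_cap {m k : ℕ} (hm : 0 < m) (hk : 0 < k) (h : ∀ s, k ^ s ≤ delta D (s * m)) :
    Real.logb 2 k / m ≤ cap D := by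
  refine ge_of_tendsto ((tend D).comp (tendsto_id.atTop_mul_const' hm)) ?_
  filter_upwards [eventually_gt_atTop 0] with s hs
  have h1 : (0 : ℝ) < s := by exact_mod_cast hs
  have h2 : (0 : ℝ) < m := by exact_mod_cast hm
  have h3 : (0 : ℝ) < k := by exact_mod_cast hk
  have : Real.logb 2 ((k : ℝ) ^ s) ≤ Real.logb 2 (delta D (s * m)) :=
    Real.logb_le_logb_of_le one_lt_two (by positivity) (by exact_mod_cast h s)
  rw [Real.logb_pow] at this
  simp only [Function.comp, id, Nat.cast_mul]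
  rw [div_le_div_iff₀ h2 (by positivity)]
  nlinarith

lemma fac (L t : ℕ) (φ F : ℕ → ℤ) : (List.range L).map φ <:+: (List.range t).map F ↔
    ∃ i, i + L ≤ t ∧ ∀ j < L, φ j = F (i + j) := by
  constructor
  · rintro ⟨a, b, h⟩
    have h1 := congrArg List.length h
    simp only [List.length_append, List.length_map, List.length_range] at h1
    refine ⟨a.length, by omega, fun j hj => ?_⟩
    have h2 := congrArg (·[a.length + j]?) h
    simp only [List.append_assoc] at h2
    rw [List.getElem?_append_right (by omega), List.getElem?_append_left (by simpa using hj)] at h2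
    simpa [hj, show a.length + j < t by omega] using h2
  · rintro ⟨i, h1, h2⟩
    obtain ⟨r, rfl⟩ := Nat.exists_eq_add_of_le h1
    refine ⟨(List.range i).map F, ((List.range r).map (i + L + ·)).map F, ?_⟩
    rw [List.range_add, List.range_add, List.map_append, List.map_append, List.map_map (g := F) (f := (i + ·))]
    congr 2
    exact List.map_congr_left fun j hj => h2 j (List.mem_range.1 hj)

def ext {t : ℕ} (u : Fin t → Bool) (i : ℕ) : Bool := if h : i < t then u ⟨i, h⟩ else false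

lemma ext_inj {t : ℕ} : Function.Injective (ext (t := t)) := fun u v h => funext fun i => by
  simpa [ext] using congrFun h i

lemma diff_eq {t : ℕ} (u v : Fin t → Bool) :
    diff u v = (List.range t).map fun i => (ext u i).toInt - (ext v i).toInt := by
  refine List.ext_getElem (by simp [diff]) fun i h1 h2 => ?_
  have : i < t := by simpa using h2
  simp [diff, ext, this]

def pat (γ j j' : ℕ) (s : ℤ × ℤ × ℤ) : List ℤ :=
  (List.range (min j' γ + 1)).map fun i =>
    if i = 0 then s.1 else if i = j then s.2.1 else if i = j' then s.2.2 else 0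

def Dd (γ n : ℕ) (es : List (ℕ × ℕ)) : List (List ℤ) :=
  ((List.range γ ×ˢ List.range γ).filter fun p =>
    0 < p.1 ∧ p.1 ≤ p.2 ∧ (p.1 = p.2 → ¬ ∃ e ∈ es, p.1 + g n e.1 = g n e.2)).flatMap fun p =>
    (([1, -1] : List ℤ) ×ˢ ([1, -1] : List ℤ) ×ˢ ([1, -1] : List ℤ)).map (pat γ p.1 p.2)

lemma mem_Dd {γ n : ℕ} {es : List (ℕ × ℕ)} {d : List ℤ} : d ∈ Dd γ n es ↔
    ∃ j j' : ℕ, ∃ a b c : ℤ, j' < γ ∧ 0 < j ∧ j ≤ j' ∧
      (j = j' → ¬ ∃ e ∈ es, j + g n e.1 = g n e.2) ∧ (a = 1 ∨ a = -1) ∧ (b = 1 ∨ b = -1) ∧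
      (c = 1 ∨ c = -1) ∧ d = (List.range (j' + 1)).map fun i =>
        if i = 0 then a else if i = j then b else if i = j' then c else 0 := by
  simp only [Dd, List.mem_flatMap, List.mem_filter, List.mem_map, Prod.exists, List.mem_product,
    List.mem_range, decide_eq_true_eq, List.mem_cons, List.not_mem_nil, or_false]
  constructor
  · rintro ⟨j, j', ⟨⟨-, h1⟩, h2, h3, h4⟩, a, b, c, ⟨h5, h6, h7⟩, rfl⟩
    exact ⟨j, j', a, b, c, h1, h2, h3, h4, h5, h6, h7, by rw [pat, min_eq_left h1.le]⟩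
  · rintro ⟨j, j', a, b, c, h1, h2, h3, h4, h5, h6, h7, rfl⟩
    exact ⟨j, j', ⟨⟨by omega, h1⟩, h2, h3, h4⟩, a, b, c, ⟨h5, h6, h7⟩, by rw [pat, min_eq_left h1.le]⟩

lemma avoid_iff {γ n t : ℕ} {es : List (ℕ × ℕ)} (u v : Fin t → Bool) :
    (∀ d ∈ Dd γ n es, ¬ d <:+: diff u v) ↔ ∀ i k, i < k → ext u i ≠ ext v i → ext u k ≠ ext v k →
      k - i < γ → (∃ e ∈ es, k - i + g n e.1 = g n e.2) ∧ ∀ l, i < l → l < k → ext u l = ext v l := by
  set F : ℕ → ℤ := fun i => (ext u i).toInt - (ext v i).toInt with hF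
  have F0 : ∀ i, ext u i = ext v i ↔ F i = 0 := fun i => by
    simp only [hF]; cases ext u i <;> cases ext v i <;> simp
  have F1 : ∀ i, F i ≠ 0 → F i = 1 ∨ F i = -1 := fun i => by
    simp only [hF]; cases ext u i <;> cases ext v i <;> simp
  have F2 : ∀ i, F i ≠ 0 → i < t := fun i h => by
    by_contra h1; simp [hF, ext, h1] at h
  simp only [ne_eq, F0, diff_eq, ← hF]
  constructor
  · intro h
    have key : ∀ i j j', j' < γ → 0 < j → j ≤ j' → F i ≠ 0 → F (i + j) ≠ 0 → F (i + j') ≠ 0 →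
        (∀ l, 0 < l → l < j' → l ≠ j → F (i + l) = 0) →
        j = j' ∧ ∃ e ∈ es, j + g n e.1 = g n e.2 := by
      intro i j j' h1 h2 h3 h4 h5 h6 h7
      by_contra h8
      refine h _ (mem_Dd.2 ⟨j, j', _, _, _, h1, h2, h3, fun h9 h10 => h8 ⟨h9, h10⟩, F1 _ h4, F1 _ h5,
        F1 _ h6, rfl⟩) ((fac _ _ _ _).2 ⟨i, F2 _ h6, fun l hl => ?_⟩)
      split_ifs with a b c
      · rw [a]; rfl
      · rw [b]
      · rw [c]
      · exact (h7 l (by omega) (by omega) b).symm
    intro i k h1 h2 h3 h4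
    have ex : ∀ a, a < k - i → ∃ j, a < j ∧ j ≤ k - i ∧ F (i + j) ≠ 0 ∧
        ∀ l, a < l → l < j → F (i + l) = 0 := fun a ha => by
      have : ∃ j, a < j ∧ F (i + j) ≠ 0 := ⟨k - i, ha, by rwa [Nat.add_sub_cancel' h1.le]⟩
      refine ⟨Nat.find this, (Nat.find_spec this).1,
        Nat.find_min' this ⟨ha, by rwa [Nat.add_sub_cancel' h1.le]⟩, (Nat.find_spec this).2,
        fun l h5 h6 => ?_⟩
      by_contra h7
      exact Nat.find_min this h6 ⟨h5, h7⟩
    obtain ⟨j, a1, a2, a3, a4⟩ := ex 0 (by omega)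
    rcases a2.lt_or_eq with a2 | a2
    · obtain ⟨j', b1, b2, b3, b4⟩ := ex j a2
      have := (key i j j' (by omega) a1 b1.le h2 a3 b3 fun l c1 c2 c3 => by
        rcases lt_or_gt_of_ne c3 with c | c
        · exact a4 l c1 c
        · exact b4 l c c2).1
      omega
    · refine ⟨a2 ▸ (key i j j (by omega) a1 le_rfl h2 a3 a3 fun l c1 c2 _ => a4 l c1 c2).2,
        fun l c1 c2 => ?_⟩
      have := a4 (l - i) (by omega) (by omega)
      rwa [Nat.add_sub_cancel' c1.le] at this
  · intro h d hd hf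
    obtain ⟨j, j', a, b, c, h1, h2, h3, h4, h5, h6, h7, rfl⟩ := mem_Dd.1 hd
    obtain ⟨i, -, h8⟩ := (fac _ _ _ _).1 hf
    have a0 := h8 0 (by omega)
    have a1 := h8 j (by omega)
    have a2 := h8 j' (by omega)
    rw [if_pos rfl, add_zero] at a0
    rw [if_neg (by omega), if_pos rfl] at a1
    rw [if_neg (by omega)] at a2
    have := h i (i + j') (by omega) (by omega) (by split_ifs at a2 <;> omega) (by omega)
    rw [Nat.add_sub_cancel_left] at this
    rcases h3.lt_or_eq with h3 | h3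
    · have := this.2 (i + j) (by omega) (by omega)
      omega
    · exact h4 h3 (h3 ▸ this.1)

end Pool.Agent.H.MP_edb722_lc
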