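import Pool.Agent.H.MP_edb722_lc.B

set_option autoImplicit false
open Finset Filter Topology

namespace Pool.Agent.H.MP_edb722_lc

lemma no_case {γ n k : ℕ} {es : List (ℕ × ℕ)} (hes : ∀ e ∈ es, e.1 < e.2 ∧ e.2 < n) (hk : 4 ≤ k)
    (h : ¬ Cl n es k) : delta (Dd γ n es) γ ≤ k := by
  classical
  obtain ⟨W, hW, h1⟩ := ex_delta (D := Dd γ n es) γ
  have lt : ∀ u v : Fin γ → Bool, ∀ i, ext u i ≠ ext v i → i < γ := fun u v i h => by
    by_contra h1; simp [ext, h1] at h
  have key : ∀ u ∈ W, ∀ v ∈ W, ∀ i k, i < k → ext u i ≠ ext v i → ext u k ≠ ext v k →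
      (∃ e ∈ es, k - i + g n e.1 = g n e.2) ∧ ∀ l, i < l → l < k → ext u l = ext v l :=
    fun u hu v hv i k h1 h2 h3 => (avoid_iff u v).1 (hW u hu v hv fun h => h2 (h ▸ rfl)) i k h1 h2 h3
      (by have := lt u v k h3; omega)
  set C := (range γ).filter fun p => ∃ u ∈ W, ∃ v ∈ W, ext u p ≠ ext v p with hC
  have h2 := diam (W.image ext) C (by
      simp only [forall_mem_image]
      intro u hu v hv p q r hp hq hr
      by_contra h3
      have a := fun i l k h1 h2 (h3 : ext u i ≠ ext v i) (h4 : ext u l ≠ ext v l) h5 =>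
        h4 ((key u hu v hv i k (lt_trans h1 h2) h3 h5).2 l h1 h2)
      have := a p q r; have := a p r q; have := a q p r; have := a q r p; have := a r p q
      have := a r q p
      simp only [hp, hq, hr, ne_eq, not_false_eq_true, forall_const, imp_false] at *
      omega)
    (by
      simp only [forall_mem_image]
      exact fun u hu v hv p hp => mem_filter.2 ⟨mem_range.2 (lt u v p hp), u, hu, v, hv, hp⟩)
  rw [card_image_of_injective _ ext_inj, h1] at h2
  have h3 := clq hes C fun c hc c' hc' hl => by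
    obtain ⟨-, u, hu, v, hv, a⟩ := mem_filter.1 hc
    obtain ⟨-, x, hx, y, hy, b⟩ := mem_filter.1 hc'
    have bo : ∀ a b c : Bool, a ≠ b → c ≠ a ∨ c ≠ b := by decide
    by_cases h4 : ext u c' = ext v c'
    · rcases bo _ _ (ext u c') b with h5 | h5
      · rcases bo _ _ (ext x c) a with h6 | h6
        · exact (key x hx u hu c c' hl h6 h5.symm).1
        · exact (key x hx v hv c c' hl h6 (h4 ▸ h5.symm)).1
      · rcases bo _ _ (ext y c) a with h6 | h6
        · exact (key y hy u hu c c' hl h6 h5.symm).1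
        · exact (key y hy v hv c c' hl h6 (h4 ▸ h5.symm)).1
    · exact (key u hu v hv c c' hl a h4).1
  have : C.card < k := by
    rcases h3 with h3 | h3
    · omega
    · by_contra h4
      exact h (h3.mono (by omega))
  omega

lemma yes_case {γ n k : ℕ} {es : List (ℕ × ℕ)} (h : Cl n es k) (s : ℕ) :
    (k + 1) ^ s ≤ delta (Dd γ n es) (s * (g n n + γ)) := by
  classical
  obtain ⟨S, h1, h2, rfl⟩ := h
  set m := g n n + γ with hm
  set A := insert m (S.image (g n)) with hA
  have hlt : ∀ x ∈ S, g n x < g n n := fun x hx => g_mono n (h1 x hx)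
  have hc : A.card = S.card + 1 := by
    rw [hA, card_insert_of_notMem, card_image_of_injective _ (g_mono n).injective]
    simp only [mem_image, not_exists, not_and]
    intro x hx h
    have := hlt x hx
    omega
  have hA' : ∀ a ∈ A, a = m ∨ ∃ x ∈ S, g n x = a := fun a ha => by simpa [hA] using ha
  let w : (Fin s → ℕ) → Fin (s * m) → Bool := fun σ i => decide ((i.modNat : ℕ) = σ i.divNat)
  have hw : ∀ σ τ : Fin s → ℕ, ∀ i, ext (w σ) i ≠ ext (w τ) i →
      ∃ h : i / m < s, i % m < m ∧ (i % m = σ ⟨_, h⟩ ∨ i % m = τ ⟨_, h⟩) := fun σ τ i h => by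
    by_cases hi : i < s * m
    · refine ⟨(Fin.divNat ⟨i, hi⟩).2, (Fin.modNat ⟨i, hi⟩).2, ?_⟩
      by_contra h3
      push Not at h3
      simp only [ext, dif_pos hi, w] at h
      exact h ((decide_eq_false h3.1).trans (decide_eq_false h3.2).symm)
    · simp [ext, hi] at h
  refine le_trans (le_of_eq ?_) (le_delta (W := (Fintype.piFinset fun _ : Fin s => A).image w) ?_)
  · rw [card_image_of_injOn, Fintype.card_piFinset]
    · simp [hc]
    intro σ hσ τ hτ h
    have aux : ∀ σ τ : Fin s → ℕ, w σ = w τ → ∀ b, σ b < m → σ b = τ b := fun σ τ h b hb => by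
      have := congrFun h (finProdFinEquiv (b, ⟨σ b, hb⟩))
      have e : (finProdFinEquiv (b, (⟨σ b, hb⟩ : Fin m))).divNat = b :=
        congrArg Prod.fst (finProdFinEquiv.symm_apply_apply (b, (⟨σ b, hb⟩ : Fin m)))
      simpa [w, e, Nat.mod_eq_of_lt hb] using this
    funext b
    have a1 := hA' _ (Fintype.mem_piFinset.1 hσ b)
    have a2 := hA' _ (Fintype.mem_piFinset.1 hτ b)
    rcases a1 with a1 | ⟨x, hx, a1⟩
    · rcases a2 with a2 | ⟨y, hy, a2⟩
      · omega
      · exact (aux τ σ h.symm b (by have := hlt y hy; omega)).symm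
    · exact aux σ τ h b (by have := hlt x hx; omega)
  · simp only [Avoids, forall_mem_image]
    intro σ hσ τ hτ _
    refine (avoid_iff _ _).2 fun i k h3 h4 h5 h6 => ?_
    have hx : ∀ i, ext (w σ) i ≠ ext (w τ) i → ∃ x ∈ S, g n x = i % m := fun i h => by
      obtain ⟨a, b, c⟩ := hw σ τ i h
      rcases c with c | c
      · exact (hA' _ (c ▸ Fintype.mem_piFinset.1 hσ _)).resolve_left b.ne
      · exact (hA' _ (c ▸ Fintype.mem_piFinset.1 hτ _)).resolve_left b.ne
    obtain ⟨x, x1, x2⟩ := hx i h4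
    obtain ⟨y, y1, y2⟩ := hx k h5
    have same : ∀ l, i ≤ l → l ≤ k → l / m = i / m := fun l a b => by
      refine Nat.div_eq_of_lt_le ((Nat.div_mul_le_self i m).trans a) ?_
      have := Nat.div_add_mod' i m
      have := hlt x x1
      rw [add_mul]; omega
    have e1 := Nat.div_add_mod' i m
    have e2 := Nat.div_add_mod' k m
    have e3 := same k h3.le le_rfl
    rw [e3] at e2
    refine ⟨⟨(x, y), h2 x x1 y y1 ((g_mono n).lt_iff_lt.1 (by omega)), by simp only; omega⟩,
      fun l a b => ?_⟩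
    by_contra c
    have e4 := Nat.div_add_mod' l m
    have e5 := same l a.le b.le
    obtain ⟨_, -, d1⟩ := hw σ τ i h4
    obtain ⟨_, -, d2⟩ := hw σ τ k h5
    obtain ⟨_, -, d3⟩ := hw σ τ l c
    simp only [e3] at d2
    simp only [e5] at d3
    rw [e5] at e4
    omega

def gam (n : ℕ) : ℕ := 2 * (n + 2) ^ 2 * g n n
def den (n : ℕ) : ℕ := 4 * (n + 2) * (g n n + gam n)
def num (n k : ℕ) : ℕ := ((k + 1) ^ (4 * (n + 2))).size - 1

lemma ar {R K p L L1 : ℝ} (R0 : 1 ≤ R) (K0 : 2 ≤ K) (q2 : p ≤ 4 * K * L1) (q3 : 4 * K * L1 < p + 1)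
    (q4 : 1 + K * L ≤ K * L1) (q5 : L ≤ K) :
    L / (2 * K ^ 2 * R) < (p * (4 * K * (R + 2 * K ^ 2 * R)) - 1) / (4 * K * (R + 2 * K ^ 2 * R)) ^ 2 ∧
    (p * (4 * K * (R + 2 * K ^ 2 * R)) - 1) / (4 * K * (R + 2 * K ^ 2 * R)) ^ 2 ≤
      L1 / (R + 2 * K ^ 2 * R) := by
  have q0 : 1 ≤ 4 * K * (R + 2 * K ^ 2 * R) := by
    have : 0 ≤ 2 * K ^ 2 * R := by positivity
    nlinarith
  have a : L / (2 * K ^ 2 * R) ≤ (4 * K * L1 - 2) / (4 * K * (R + 2 * K ^ 2 * R)) := by
    rw [div_le_div_iff₀ (by positivity) (by positivity)]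
    have : 0 ≤ 4 * K * R * (K - L) := by have := sub_nonneg.2 q5; positivity
    have : 0 ≤ 8 * K ^ 2 * R * (K * L1 - 1 - K * L) := by
      have : 0 ≤ K * L1 - 1 - K * L := by linarith
      positivity
    linarith
  have b : p / (4 * K * (R + 2 * K ^ 2 * R)) ≤ L1 / (R + 2 * K ^ 2 * R) := by
    rw [div_le_div_iff₀ (by positivity) (by positivity)]
    have : 0 ≤ (4 * K * L1 - p) * (R + 2 * K ^ 2 * R) := by have := sub_nonneg.2 q2; positivity
    linarith
  generalize 4 * K * (R + 2 * K ^ 2 * R) = q at *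
  constructor
  · refine a.trans_lt ?_
    rw [div_lt_div_iff₀ (by positivity) (by positivity)]
    have : 0 < (p + 1 - 4 * K * L1) * q ^ 2 := by have := sub_pos.2 q3; positivity
    have : 0 ≤ q * (q - 1) := by have := sub_nonneg.2 q0; positivity
    linarith
  · refine le_trans ?_ b
    rw [div_le_div_iff₀ (by positivity) (by positivity)]
    linarith

lemma arith {n k : ℕ} (hk : 4 ≤ k) (hn : k ≤ n + 1) :
    Real.logb 2 k / gam n < ((num n k : ℝ) * den n - 1) / (den n : ℝ) ^ 2 ∧
      ((num n k : ℝ) * den n - 1) / (den n : ℝ) ^ 2 ≤ Real.logb 2 (k + 1 : ℕ) / (g n n + gam n : ℕ) := by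
  have hR : 0 < g n n := lt_of_le_of_lt (Nat.zero_le _) (g_mono n (by omega : 0 < n))
  have p0 : 0 < (k + 1) ^ (4 * (n + 2)) := by positivity
  have p1 : ((k + 1) ^ (4 * (n + 2))).size = num n k + 1 := by
    have := Nat.size_pos.2 p0
    unfold num; omega
  have p2 : 2 ^ num n k ≤ (k + 1) ^ (4 * (n + 2)) := Nat.lt_size.1 (by omega)
  have p3 : (k + 1) ^ (4 * (n + 2)) < 2 ^ (num n k + 1) := p1 ▸ Nat.lt_size_self _
  have k0 : (4 : ℝ) ≤ k := by exact_mod_cast hk
  have k1 : (k : ℝ) ≤ n + 1 := by exact_mod_cast hn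
  have q2 : (num n k : ℝ) ≤ 4 * (n + 2) * Real.logb 2 (k + 1) := by
    have := Real.logb_le_logb_of_le one_lt_two (x := 2 ^ num n k) (y := (k + 1) ^ (4 * (n + 2)))
      (by positivity) (by exact_mod_cast p2)
    simpa [Real.logb_pow] using this
  have q3 : 4 * (n + 2) * Real.logb 2 (k + 1) < num n k + 1 := by
    have := Real.logb_lt_logb one_lt_two (y := 2 ^ (num n k + 1)) (x := (k + 1) ^ (4 * (n + 2)))
      (by positivity) (by exact_mod_cast p3)
    simpa [Real.logb_pow] using this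
  have l2 : 0 < Real.log 2 := Real.log_pos one_lt_two
  have l3 : Real.log 2 < 1 := by have := Real.log_two_lt_d9; linarith
  have l4 : 1 / 2 < Real.log 2 := by have := Real.log_two_gt_d9; linarith
  have q4 : 1 + (n + 2) * Real.logb 2 k ≤ (n + 2) * Real.logb 2 (k + 1) := by
    have a := Real.one_sub_inv_le_log_of_pos (x := (k + 1) / k) (by positivity)
    rw [Real.log_div (by positivity) (by positivity)] at a
    have b : 1 - (((k : ℝ) + 1) / k)⁻¹ = 1 / (k + 1) := by field_simp; ring
    have c : 1 / ((n : ℝ) + 2) ≤ 1 / (k + 1) := one_div_le_one_div_of_le (by positivity) (by linarith)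
    have d : 1 ≤ ((n : ℝ) + 2) * (Real.log (k + 1) - Real.log k) := by
      rw [← div_le_iff₀' (by positivity)]; linarith
    unfold Real.logb
    rw [← mul_div_assoc, ← mul_div_assoc, add_comm 1, div_add_one l2.ne', div_le_div_iff_of_pos_right l2]
    linarith
  have q5 : Real.logb 2 k ≤ n + 2 := by
    rw [Real.logb_le_iff_le_rpow one_lt_two (by positivity)]
    have : (k : ℝ) ≤ 2 ^ (n + 2) := by exact_mod_cast (by have := @Nat.lt_two_pow_self (n + 2); omega)
    rw [← Real.rpow_natCast] at this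
    simpa using this
  have q6 : 0 ≤ Real.logb 2 k := Real.logb_nonneg one_lt_two (by linarith)
  have R0 : (1 : ℝ) ≤ g n n := by exact_mod_cast hR
  unfold den gam
  push_cast
  exact ar R0 (by linarith [n.cast_nonneg (α := ℝ)]) q2 q3 q4 q5

lemma main {n k : ℕ} {es : List (ℕ × ℕ)} (hes : ∀ e ∈ es, e.1 < e.2 ∧ e.2 < n) (hk : 4 ≤ k)
    (hn : k ≤ n + 1) :
    Cl n es k ↔ ((num n k : ℝ) * den n - 1) / (den n : ℝ) ^ 2 ≤ cap (Dd (gam n) n es) := by
  have hR : 0 < g n n := lt_of_le_of_lt (Nat.zero_le _) (g_mono n (by omega : 0 < n))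
  constructor
  · exact fun h => (arith hk hn).2.trans (le_cap (by omega) k.succ_pos (yes_case h))
  · intro h
    by_contra h1
    exact absurd ((arith hk hn).1.trans_le h) (not_lt.2 (cap_le (by unfold gam; positivity) (no_case hes hk h1)))

def pad (n : ℕ) (es : List (ℕ × ℕ)) : List (ℕ × ℕ) :=
  es ++ (List.range (n + 4) ×ˢ List.range (n + 4)).filter fun p => p.1 < p.2 ∧ n ≤ p.2

lemma pad_iff {n k : ℕ} {es : List (ℕ × ℕ)} : Cl n es k ↔ Cl (n + 4) (pad n es) (k + 4) := by
  constructor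
  · rintro ⟨S, h1, h2, rfl⟩
    refine ⟨S ∪ Ico n (n + 4), fun x hx => ?_, fun x hx y hy hl => ?_, ?_⟩
    · rcases mem_union.1 hx with h | h
      · have := h1 x h; omega
      · exact (mem_Ico.1 h).2
    · rcases mem_union.1 hy with h | h
      · have := h1 y h
        exact List.mem_append_left _ (h2 x ((mem_union.1 hx).resolve_right (by simp; omega)) y h hl)
      · have := mem_Ico.1 h
        exact List.mem_append_right _ (by simp; omega)
    · rw [card_union_of_disjoint (disjoint_left.2 fun x hx h => by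
        have := h1 x hx; have := mem_Ico.1 h; omega)]
      simp
  · rintro ⟨S, h1, h2, h3⟩
    refine Cl.mono (k := (S.filter (· < n)).card) ⟨_, fun x hx => (mem_filter.1 hx).2,
      fun x hx y hy hl => ?_, rfl⟩ ?_
    · rcases List.mem_append.1 (h2 x (mem_filter.1 hx).1 y (mem_filter.1 hy).1 hl) with h | h
      · exact h
      · have := (mem_filter.1 hy).2
        simp at h; omega
    · have := card_filter_add_card_filter_not (s := S) (· < n)
      have h4 : (S.filter fun x => ¬ x < n).card ≤ (Ico n (n + 4)).card := card_le_card fun x hx => by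
        have := mem_filter.1 hx
        have := h1 x this.1
        simp; omega
      simp only [Nat.card_Ico] at h4
      omega

end Pool.Agent.H.MP_edb722_lc
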